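import Pool.Agent.Helper97.Tate.Goals

/-!
# Project FewPoints (MP_d3128a_ag): GEN
-/

set_option autoImplicit false

namespace Pool.Agent.Helper66.Tate.GEN

open Pool.Agent.Helper97.Tate

noncomputable section

/-- the group of exponents -/
abbrev GG (n : ℕ) : Type := ℤ × (Fin n → ℤ) × (Fin n → ℤ)

/-- the group algebra -/
abbrev AA (n : ℕ) : Type := AddMonoidAlgebra ℚ (GG n)

instance (n : ℕ) : IsDomain (AA n) := NoZeroDivisors.to_isDomain _

/-- the field of fractions -/
def FF (n : ℕ) : Type := FractionRing (AA n)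

instance (n : ℕ) : Field (FF n) := inferInstanceAs (Field (FractionRing (AA n)))

instance (n : ℕ) : Algebra (AA n) (FF n) := inferInstanceAs (Algebra (AA n) (FractionRing (AA n)))

instance (n : ℕ) : IsFractionRing (AA n) (FF n) :=
  inferInstanceAs (IsFractionRing (AA n) (FractionRing (AA n)))

instance (n : ℕ) : CharZero (FF n) :=
  have : CharZero (AA n) := algebraRat.charZero (AA n)
  charZero_of_injective_algebraMap (IsFractionRing.injective (AA n) (FF n))

/-- the monomials -/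
def U (n : ℕ) : Multiplicative (GG n) →* (FF n)ˣ :=
  MonoidHom.toHomUnits (((algebraMap (AA n) (FF n) : AA n →+* FF n) : AA n →* FF n).comp
    (AddMonoidAlgebra.of ℚ (GG n)))

/-- the monomials -/
def V (n : ℕ) (g : GG n) : (FF n)ˣ := U n (Multiplicative.ofAdd g)

theorem V_val {n : ℕ} (g : GG n) :
    ((V n g : (FF n)ˣ) : FF n) = algebraMap (AA n) (FF n) (AddMonoidAlgebra.single g 1) := rfl

theorem V_add {n : ℕ} (a b : GG n) : V n (a + b) = V n a * V n b := by
  unfold V
  rw [ofAdd_add, map_mul]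

theorem V_zsmul {n : ℕ} (m : ℤ) (a : GG n) : V n (m • a) = V n a ^ m := by
  unfold V
  rw [ofAdd_zsmul, map_zpow]

theorem V_sum {n : ℕ} {ι : Type} (s : Finset ι) (f : ι → GG n) :
    V n (∑ i ∈ s, f i) = ∏ i ∈ s, V n (f i) := by
  unfold V
  rw [ofAdd_sum, map_prod]

/-- basis vectors -/
def e0 (n : ℕ) : GG n := (1, 0, 0)

/-- basis vectors -/
def ex {n : ℕ} (i : Fin n) : GG n := (0, Pi.single i 1, 0)

/-- basis vectors -/
def ey {n : ℕ} (i : Fin n) : GG n := (0, 0, Pi.single i 1)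

theorem V_indep (n : ℕ) : LinearIndependent ℚ fun g : GG n => ((V n g : (FF n)ˣ) : FF n) := by
  have h1 : LinearIndependent ℚ fun g : GG n => (AddMonoidAlgebra.single g (1 : ℚ) : AA n) := by
    exact (AddMonoidAlgebra.basis (GG n) ℚ).linearIndependent
  have h2 := h1.map' (algebraMap (AA n) (FF n)).toRatAlgHom.toLinearMap (by
    rw [LinearMap.ker_eq_bot]
    exact IsFractionRing.injective (AA n) (FF n))
  exact h2

/-- the extension of exponents -/
def EE {b n : ℕ} (hb : b ≤ n) (g : ℤ × (Fin b → ℤ) × (Fin b → ℤ)) : GG n :=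
  g.1 • e0 n + ∑ i, g.2.1 i • ex (Fin.castLE hb i) + ∑ i, g.2.2 i • ey (Fin.castLE hb i)

theorem EE_fst {b n : ℕ} (hb : b ≤ n) (g : ℤ × (Fin b → ℤ) × (Fin b → ℤ)) :
    (EE hb g).1 = g.1 := by
  simp [EE, e0, ex, ey, Prod.fst_sum]

theorem EE_snd {b n : ℕ} (hb : b ≤ n) (g : ℤ × (Fin b → ℤ) × (Fin b → ℤ)) (j : Fin b) :
    (EE hb g).2.1 (Fin.castLE hb j) = g.2.1 j := by
  simp [EE, e0, ex, ey, Prod.fst_sum, Prod.snd_sum, Finset.sum_apply, Pi.single_apply]

theorem EE_trd {b n : ℕ} (hb : b ≤ n) (g : ℤ × (Fin b → ℤ) × (Fin b → ℤ)) (j : Fin b) :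
    (EE hb g).2.2 (Fin.castLE hb j) = g.2.2 j := by
  simp [EE, e0, ex, ey, Prod.fst_sum, Prod.snd_sum, Finset.sum_apply, Pi.single_apply]

theorem EE_inj {b n : ℕ} (hb : b ≤ n) : Function.Injective (EE hb) := by
  intro g g' h
  refine Prod.ext ?_ (Prod.ext ?_ ?_)
  · rw [← EE_fst hb g, h, EE_fst]
  · funext j
    rw [← EE_snd hb g, h, EE_snd]
  · funext j
    rw [← EE_trd hb g, h, EE_trd]

theorem gen_le {b n : ℕ} (hb : b ≤ n) :
    Gen (V n (e0 n)) (fun i : Fin b => V n (ex (Fin.castLE hb i)))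
      (fun i : Fin b => V n (ey (Fin.castLE hb i))) := by
  have h1 := (V_indep n).comp (EE hb) (EE_inj hb)
  have h2 : (fun g : ℤ × (Fin b → ℤ) × (Fin b → ℤ) =>
      ((mon (V n (e0 n)) (fun i : Fin b => V n (ex (Fin.castLE hb i)))
        (fun i : Fin b => V n (ey (Fin.castLE hb i))) g : (FF n)ˣ) : FF n)) =
      (fun g : GG n => ((V n g : (FF n)ˣ) : FF n)) ∘ (EE hb) := by
    funext g
    rw [Function.comp_apply, EE, V_add, V_add, V_zsmul, V_sum, V_sum, mon]
    simp only [V_zsmul]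
  unfold Gen
  rw [h2]
  exact h1

/-- the endomorphism of the group of exponents -/
def ph (n : ℕ) (t : ℤ) : GG n →+ GG n where
  toFun g := (g.1 + t * ∑ i, g.2.1 i, g.2.1, g.2.2)
  map_zero' := by simp
  map_add' a b := by
    refine Prod.ext ?_ rfl
    simp only [Prod.fst_add, Prod.snd_add, Pi.add_apply, Finset.sum_add_distrib]
    ring

theorem ph_inj (n : ℕ) (t : ℤ) : Function.Injective (ph n t) := by
  intro a b h
  have h1 : (ph n t a).2 = (ph n t b).2 := by rw [h]
  have h2 : a.2 = b.2 := h1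
  have h3 : (ph n t a).1 = (ph n t b).1 := by rw [h]
  have h4 : a.1 + t * ∑ i, a.2.1 i = b.1 + t * ∑ i, b.2.1 i := h3
  rw [h2] at h4
  exact Prod.ext (by omega) h2

theorem t : S_GEN := by
  intro n
  refine ⟨FF n, inferInstance, inferInstance, V n (e0 n), fun i => V n (ex i),
    fun i => V n (ey i), ?_, ?_, ?_⟩
  · exact gen_le (le_refl n)
  · intro t
    set f : AA n →+* FF n := (algebraMap (AA n) (FF n)).comp
      (AddMonoidAlgebra.mapDomainRingHom ℚ (ph n t)) with hf
    have hinj : Function.Injective f := by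
      refine (IsFractionRing.injective (AA n) (FF n)).comp ?_
      exact AddMonoidAlgebra.mapDomain_injective (ph_inj n t)
    set σ : FF n →+* FF n := IsFractionRing.lift hinj with hσ
    have hV : ∀ g : GG n, σ (V n g) = ((V n (ph n t g) : (FF n)ˣ) : FF n) := by
      intro g
      rw [V_val, V_val, hσ, IsFractionRing.lift_algebraMap, hf, RingHom.comp_apply]
      congr 1
      simp
    refine ⟨σ, ?_, ?_, ?_⟩
    · rw [hV]
      congr 2
      simp [ph, e0]
    · intro i
      rw [hV, ← Units.val_zpow_eq_zpow_val, ← Units.val_mul, ← V_zsmul, ← V_add]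
      congr 2
      simp [ph, e0, ex]
    · intro i
      rw [hV]
      congr 2
      simp [ph, ey]
  · intro b hb
    exact gen_le hb

end

end Pool.Agent.Helper66.Tate.GEN
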