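import Pool.Agent.Helper97.Tate.Goals

/-!
# Project FewPoints (MP_d3128a_ag): KRD
-/

set_option autoImplicit false

open Module

namespace Pool.Agent.Helper66.Tate.KRD

open Pool.Agent.Helper97.Tate

noncomputable section

theorem card_row (M α : ℕ) :
    (Finset.univ.filter fun β : Fin M => α + (β : ℕ) < M).card = M - α := by
  rw [← Finset.card_map Fin.valEmbedding]
  have : (Finset.univ.filter fun β : Fin M => α + (β : ℕ) < M).map Fin.valEmbedding =
      Finset.range (M - α) := by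
    ext i
    simp only [Finset.mem_map, Finset.mem_filter, Finset.mem_univ, true_and, Fin.valEmbedding_apply,
      Finset.mem_range]
    constructor
    · rintro ⟨β, h1, rfl⟩
      omega
    · intro h
      exact ⟨⟨i, by omega⟩, by simp only; omega, rfl⟩
  rw [this, Finset.card_range]

theorem card_tri (M : ℕ) :
    Fintype.card {p : Fin M × Fin M // (p.1 : ℕ) + (p.2 : ℕ) < M} = (M + 1).choose 2 := by
  rw [Fintype.card_subtype, Finset.card_filter, Fintype.sum_prod_type]
  have h1 : ∀ α : Fin M, (∑ β : Fin M, if (α : ℕ) + (β : ℕ) < M then 1 else 0) = M - (α : ℕ) := by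
    intro α
    rw [← card_row M α, Finset.card_filter]
  simp only [h1]
  rw [Fin.sum_univ_eq_sum_range (fun i => M - i) M]
  have h2 : ∑ i ∈ Finset.range M, (M - i) = ∑ i ∈ Finset.range M, (i + 1) := by
    rw [← Finset.sum_range_reflect (fun i => i + 1) M]
    refine Finset.sum_congr rfl fun i hi => ?_
    rw [Finset.mem_range] at hi
    omega
  have h3 : ∑ i ∈ Finset.range M, (i + 1) = ∑ i ∈ Finset.range (M + 1), i := by
    rw [Finset.sum_range_succ' (fun i => i) M, add_zero]
  rw [h2, h3, Finset.sum_range_id, Nat.choose_two_right]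

theorem card_Idx (b M : ℕ) : Fintype.card (Idx b M) = b * (M + 1).choose 2 := by
  rw [Fintype.card_prod, Fintype.card_fin, card_tri]

/-- the equations of `Ker` are those of the columns. -/
theorem mem_Ker {K : Type} [Field K] {κ b : ℕ} (M lam j0 : ℕ) (Y : Fin b → K)
    (S : Fin b → ℕ → Fin κ → PowerSeries K) (a : Fin lam → Fin κ → K) :
    a ∈ Ker M lam j0 Y S ↔ ∑ j : Fin lam, ∑ r, a j r • colv M j0 Y S (j : ℕ) r = 0 := by
  have key : ∀ p : Idx b M, (∑ j : Fin lam, ∑ r, a j r • colv M j0 Y S (j : ℕ) r) p =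
      ∑ j : Fin lam, Y p.1 ^ (j : ℕ) * (((j : ℕ).choose (p.2.1.2 : ℕ) : ℕ) : K) *
        ∑ r : Fin κ, a j r * PowerSeries.coeff (p.2.1.1 : ℕ) (S p.1 (j0 + j) r) := by
    intro p
    simp only [Finset.sum_apply, Pi.smul_apply, smul_eq_mul, colv]
    refine Finset.sum_congr rfl fun j _ => ?_
    rw [Finset.mul_sum]
    refine Finset.sum_congr rfl fun r _ => ?_
    ring
  constructor
  · intro h
    funext p
    rw [key]
    exact h p.1 p.2.1.1 p.2.1.2 p.2.2
  · intro h i α β hαβ
    have h1 := congrFun h (i, ⟨(⟨α, by omega⟩, ⟨β, by omega⟩), hαβ⟩)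
    rw [key] at h1
    exact h1

theorem t (hSGR : S_SGR) (hKRA : S_KRA) (hKRB : S_KRB) (hKRC : S_KRC) : S_KRD := by
  intro k _ _ b κ' P R M w' lam z x y ρ E j0 σ hb hκ hPR hw hlam hρ hgen hσz hσx hσy
  set Y : Fin b → KK k := fun i => algebraMap (OO k) (KK k) (PowerSeries.C ((y i : kˣ) : k))
    with hY
  set S : Fin b → ℕ → Fin (b * κ') → PowerSeries (KK k) :=
    fun i j r => evK (x i) (Th (b * κ') ((r : ℕ) : ℤ)
      ((ρ : k) * (z : k) ^ (((b * κ' : ℕ) : ℤ) * (E - 9 * j)))) with hS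
  have hcard : finrank (KK k) (Idx b M → KK k) = b * (M + 1).choose 2 := by
    rw [Module.finrank_fintype_fun_eq_card, card_Idx]
  have h := hSGR (KK k) (Idx b M → KK k) (b * κ') (P * R) lam (b * w') (colv M j0 Y S)
    (fun n hn => hKRB k b (b * κ') M z x y ρ E j0 σ (Nat.mul_pos hb hκ) hρ hσz hσx hσy n hn)
    (hKRC k b κ' M z x y ρ E j0 hb hκ hρ hgen)
    (by
      intro a ha
      have h1 := hKRA k b κ' P R M z x y ρ E j0 hb hκ hPR hρ hgen
      have h2 : a ∈ Ker M (P * R) j0 Y S := (mem_Ker M (P * R) j0 Y S a).2 ha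
      have h3 : Ker M (P * R) j0 Y S = ⊥ := Submodule.finrank_eq_zero.1 h1
      rw [h3] at h2
      exact (Submodule.mem_bot _).1 h2)
    (by
      rw [hcard, ← hw]
      apply le_of_eq
      ring)
    hlam
  rw [hcard] at h
  have heq : Ker M lam j0 Y S = LinearMap.ker (∑ j : Fin lam, ∑ r : Fin (b * κ'),
    ((LinearMap.proj r ∘ₗ LinearMap.proj j : (Fin lam → Fin (b * κ') → KK k) →ₗ[KK k]
      KK k)).smulRight (colv M j0 Y S (j : ℕ) r)) := by
    ext a
    rw [mem_Ker, LinearMap.mem_ker]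
    simp only [LinearMap.sum_apply, LinearMap.smulRight_apply, LinearMap.comp_apply,
      LinearMap.proj_apply]
  rw [heq]
  exact h

end

end Pool.Agent.Helper66.Tate.KRD
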